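import Pool.Agent.W857.End

set_option autoImplicit false

open scoped Pointwise

namespace Pool.Agent.Results.MP_120218_co.DivisorSets

/-- The conjectured bound for sets of divisors that are not exponentially sparse. -/
theorem result (k : ℕ) (ε : ℝ) (hε : 0 < ε) :
    ∃ η c : ℝ, 0 < η ∧ 0 < c ∧ ∀ n : ℕ, 1 ≤ n → ∀ A : Finset ℤ, A.Nonempty →
      (∀ a ∈ A, a.natAbs ∣ n) → (n.divisors.card : ℝ) ^ (1 - η) ≤ A.card →
      ∀ P : Finset ℤ, P.Nonempty →
      c * (A.card : ℝ) ^ ((k : ℝ) - ε) * (P.card : ℝ) ^ (1 - ε) ≤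
        ((((Fintype.piFinset fun _ : Fin k => A).image fun f => ∑ i, f i) + P).card : ℝ) :=
  W857.FD.form3 k ε hε

end Pool.Agent.Results.MP_120218_co.DivisorSets
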