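import Pool.Agent.W857.Asm2

set_option autoImplicit false

open scoped Pointwise

namespace Pool.Agent.Results.MP_120218_co.FewDivisors

/-- Sums and products of a finite set of nonzero integers whose members have few divisors. -/
theorem result (k K : ℕ) (hk : 1 ≤ k) (hK : 1 ≤ K) (ε : ℝ) (hε : 0 < ε) :
    ∃ η c : ℝ, 0 < η ∧ 0 < c ∧ ∀ A : Finset ℤ, A.Nonempty → (∀ a ∈ A, a ≠ 0) →
      ((A.biUnion fun a => a.natAbs.divisors).card : ℝ) ≤ (A.card : ℝ) ^ (1 + η) →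
      c * (A.card : ℝ) ^ ((k : ℝ) + 1 - ε) ≤
        ((Fintype.piFinset fun _ : Fin k => A).image fun f => ∑ i, f i).card *
          (((Fintype.piFinset fun _ : Fin k => A).image fun f => ∏ i, f i).card : ℝ) ∧
      ∀ P : Finset ℤ, P.Nonempty →
        c * (A.card : ℝ) ^ ((k : ℝ) * K - ε) * (P.card : ℝ) ^ ((K : ℝ) - 1 - ε) ≤
          ((((Fintype.piFinset fun _ : Fin k => A).image fun f => ∑ i, f i) + P).card : ℝ) ^
            (K - 1) *
          (((Fintype.piFinset fun _ : Fin K => A).image fun f => ∏ i, f i).card : ℝ) ^ k := by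
  obtain ⟨η₁, c₁, hη₁, hc₁, h₁⟩ := W857.FD.form1' k K hK ε hε
  obtain ⟨η₂, c₂, hη₂, hc₂, h₂⟩ := W857.FD.form2' k hk ε hε
  refine ⟨min η₁ η₂, min c₁ c₂, lt_min hη₁ hη₂, lt_min hc₁ hc₂, ?_⟩
  intro A hA h0 hD
  have cA : (1 : ℝ) ≤ A.card := by exact_mod_cast hA.card_pos
  have hD₁ : ((W857.FD.Dv A).card : ℝ) ≤ (A.card : ℝ) ^ (1 + η₁) :=
    hD.trans (Real.rpow_le_rpow_of_exponent_le cA (by linarith [min_le_left η₁ η₂]))
  have hD₂ : ((W857.FD.Dv A).card : ℝ) ≤ (A.card : ℝ) ^ (1 + η₂) :=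
    hD.trans (Real.rpow_le_rpow_of_exponent_le cA (by linarith [min_le_right η₁ η₂]))
  refine ⟨?_, fun P hP => ?_⟩
  · refine le_trans ?_ (h₂ A hA h0 hD₂)
    exact mul_le_mul_of_nonneg_right (min_le_right _ _) (by positivity)
  · refine le_trans ?_ (h₁ A hA h0 hD₁ P hP)
    refine mul_le_mul_of_nonneg_right (mul_le_mul_of_nonneg_right (min_le_left _ _) ?_) ?_
    · positivity
    · positivity

end Pool.Agent.Results.MP_120218_co.FewDivisors
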