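import Pool.Agent.W798.KF.Up2

/-!
# The Erdos-Szemeredi problem for k-fold sums and products: new exponents for every `k ≥ 2`
-/

set_option autoImplicit false

namespace Pool.Agent.Results.MP_120218_co.KFoldExponents

open Pool.Agent.W798.KF Pool.Agent.W798.KF.Up

/-- The exponents: `e_2 = 226/169` and, for `k ≥ 3`, with `t = 2^(k-2)`,
`e_k = (2781 t² - 1841 t + 184)/(t (1854 t - 1015))`
(`e_3 = 3813/2693`, `e_4 = 9329/6401`, ..., limit `3/2`). -/
noncomputable def expo (k : ℕ) : ℝ :=
  if k = 2 then 226 / 169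
  else (2781 * (2 ^ (k - 2)) ^ 2 - 1841 * 2 ^ (k - 2) + 184) /
    (2 ^ (k - 2) * (1854 * 2 ^ (k - 2) - 1015))

theorem real_bound (j : ℕ) (κ : ℝ) (hκ : κ < expo (j + 2)) : ∃ c : ℝ, 0 < c ∧
    ∀ A : Finset ℝ, A.Nonempty → c * (A.card : ℝ) ^ κ ≤
      max ((sm A (j + 1)).card : ℝ) ((pr A (j + 1)).card : ℝ) := by
  rcases Nat.eq_zero_or_pos j with rfl | hj
  · have h1 : expo (0 + 2) = ex 0 := by
      unfold expo ex
      norm_num
    obtain ⟨c, hc, H⟩ := pKR 0 (ex 0 - κ) (by rw [← h1]; linarith)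
    have he : ex 0 - (ex 0 - κ) = κ := by ring
    rw [he] at H
    exact ⟨c, hc, H⟩
  · have h1 : expo (j + 2) = ex2 j := by
      unfold expo ex2
      have : j + 2 - 2 = j := by omega
      rw [if_neg (by omega), this]
    obtain ⟨c, hc, H⟩ := kr2 j hj (ex2 j - κ) (by rw [← h1]; linarith)
    have he : ex2 j - (ex2 j - κ) = κ := by ring
    rw [he] at H
    exact ⟨c, hc, H⟩

/-- For every `k ≥ 2` and every `κ < e_k` there is `c > 0` such that for every commutative ring `R`
which embeds in the reals (such as `ℤ`) every finite nonempty subset `A` of `R` has at least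
`c |A|^κ` sums of `k` elements or at least `c |A|^κ` products of `k` elements. -/
theorem result : ∀ k : ℕ, 2 ≤ k → ∀ κ : ℝ, κ < expo k →
    ∃ c : ℝ, 0 < c ∧
      ∀ (R : Type) [CommRing R] [DecidableEq R] (f : R →+* ℝ), Function.Injective f →
        ∀ A : Finset R, A.Nonempty →
          c * (A.card : ℝ) ^ κ ≤
            max
              (((Fintype.piFinset (fun _ : Fin k => A)).image
                  (fun g : Fin k → R => ∑ i, g i)).card : ℝ)
              (((Fintype.piFinset (fun _ : Fin k => A)).image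
                  (fun g : Fin k → R => ∏ i, g i)).card : ℝ) := by
  intro k hk κ hκ
  obtain ⟨j, rfl⟩ : ∃ j, k = j + 2 := ⟨k - 2, by omega⟩
  obtain ⟨c, hc, H⟩ := real_bound j κ hκ
  refine ⟨c, hc, ?_⟩
  intro R _ _ f hf A hA
  obtain ⟨h1, h2⟩ := pIM R f hf A (j + 1)
  have h3 := H (A.image f) (hA.image f)
  rw [Finset.card_image_of_injective _ hf, h1, h2] at h3
  exact h3

end Pool.Agent.Results.MP_120218_co.KFoldExponents
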