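import Mathlib
import Pool.Agent.W219.SP.Kres

/-!
# Iterated sums of integers when the multiplicative fibres are long

Let `M = 4k/ε * exp (6k/ε) * log (2 |A|)`.

* rank one: if `t` is a rational number other than `0, 1, -1` and every `a ∈ A` has at least `M`
  elements of `A` of the form `a t ^ i`, then `|kA + B| ≥ (|A| ^ k |B|) ^ (1 - ε)` for every finite
  nonempty set `B`;
* rank `r`: if every `a ∈ A` has at least `M ^ r` elements of `A` in `a ⟨t₁, …, t_r⟩`, the same holds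
  up to the factor `(r M + 1) ^ (2 r k)`;
* dichotomy: if `P` is contained in a coset of `⟨t₁, …, t_r⟩` then either
  `|A P| > |A| |P| / (2 M ^ r)` or all the sets `kA + B` are almost as large as possible;
* if the set of `k`-fold products of `A` contains such a set `P` then the larger of
  `|(k+1) A|` and `|A ^ (k+1)|` is at least about `|A| |P|`.
-/

set_option autoImplicit false

open scoped Pointwise

namespace Pool.Agent.Results.MP_120218_co.LongFibres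

open Classical in
theorem result :
    (∀ k : ℕ, 1 ≤ k → ∀ ε : ℝ, 0 < ε → ε ≤ 1 → ∀ t : ℚ, t ≠ 0 → t ≠ 1 → t ≠ -1 →
      ∀ A B : Finset ℤ, A.Nonempty → B.Nonempty →
      (∀ a ∈ A, 4 * k / ε * Real.exp (6 * k / ε) * Real.log (2 * A.card) ≤
        ((A.filter fun x : ℤ => ∃ i : ℤ, (x : ℚ) = a * t ^ i).card : ℝ)) →
      ((A.card : ℝ) ^ k * B.card) ^ (1 - ε) ≤
        ((((Fintype.piFinset fun _ : Fin k => A).image fun f => ∑ i, f i) + B).card : ℝ)) ∧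
    (∀ k r : ℕ, 1 ≤ k → 1 ≤ r → ∀ ε : ℝ, 0 < ε → ε ≤ 1 → ∀ t : Fin r → ℚ, (∀ i, 0 < t i) →
      ∀ A B : Finset ℤ, A.Nonempty → B.Nonempty →
      ∀ M : ℝ, M = 4 * k / ε * Real.exp (6 * k / ε) * Real.log (2 * A.card) →
      (∀ a ∈ A, M ^ r ≤
        ((A.filter fun x : ℤ => ∃ n : Fin r → ℤ, (x : ℚ) = a * ∏ i, t i ^ n i).card : ℝ)) →
      ((A.card : ℝ) ^ k * B.card) ^ (1 - ε) ≤ (r * M + 1) ^ (2 * r * k) *
        ((((Fintype.piFinset fun _ : Fin k => A).image fun f => ∑ i, f i) + B).card : ℝ)) ∧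
    (∀ k r : ℕ, 1 ≤ k → 1 ≤ r → ∀ ε : ℝ, 0 < ε → ε ≤ 1 → ∀ t : Fin r → ℚ, (∀ i, 0 < t i) →
      ∀ A P : Finset ℤ, A.Nonempty → (0 : ℤ) ∉ A → (0 : ℤ) ∉ P → P.Nonempty →
      (∀ q ∈ P, ∀ q' ∈ P, ∃ n : Fin r → ℤ, (q' : ℚ) = q * ∏ i, t i ^ n i) →
      ∀ M : ℝ, M = 4 * k / ε * Real.exp (6 * k / ε) * Real.log (2 * A.card) →
      2 * M ^ r * (A * P).card ≤ (A.card : ℝ) * P.card →
      ∀ B : Finset ℤ, B.Nonempty →
      (((A.card : ℝ) / 2) ^ k * B.card) ^ (1 - ε) ≤ (r * M + 1) ^ (2 * r * k) *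
        ((((Fintype.piFinset fun _ : Fin k => A).image fun f => ∑ i, f i) + B).card : ℝ)) ∧
    (∀ k r : ℕ, 1 ≤ k → 1 ≤ r → ∀ ε : ℝ, 0 < ε → ε ≤ 1 → ∀ t : Fin r → ℚ, (∀ i, 0 < t i) →
      ∀ A P : Finset ℤ, A.Nonempty → (0 : ℤ) ∉ A →
      P ⊆ ((Fintype.piFinset fun _ : Fin k => A).image fun f => ∏ i, f i) → P.Nonempty →
      (∀ q ∈ P, ∀ q' ∈ P, ∃ n : Fin r → ℤ, (q' : ℚ) = q * ∏ i, t i ^ n i) →
      ∀ M : ℝ, M = 4 * ((k + 1 : ℕ) : ℝ) / ε * Real.exp (6 * ((k + 1 : ℕ) : ℝ) / ε) *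
        Real.log (2 * A.card) →
      min ((A.card : ℝ) * P.card / (2 * M ^ r))
        (((A.card : ℝ) / 2) ^ (((k + 1 : ℕ) : ℝ) * (1 - ε)) /
          (r * M + 1) ^ (2 * r * (k + 1))) ≤
        max ((((Fintype.piFinset fun _ : Fin (k + 1) => A).image fun f => ∑ i, f i)).card : ℝ)
          ((((Fintype.piFinset fun _ : Fin (k + 1) => A).image
            fun f => ∏ i, f i)).card : ℝ)) := by
  refine ⟨?_, ?_, ?_, ?_⟩
  · intro k hk ε h1 h2 t h3 h4 h5 A B hA hB h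
    have := W219.SP.kfold_k k hk ε h1 h2 t h3 h4 h5 A B hA hB h
    convert this
  · intro k r hk hr ε h1 h2 t ht A B hA hB M hM h
    have := W219.SP.fibre_k k r hk hr ε h1 h2 t ht A B hA hB M hM h
    convert this
  · intro k r hk hr ε h1 h2 t ht A P hA hA0 hP0 hPn hP M hM h B hB
    have := W219.SP.dich_k k r hk hr ε h1 h2 t ht A P hA hA0 hP0 hPn hP M hM h B hB
    convert this
  · intro k r hk hr ε h1 h2 t ht A P hA hA0 hPA hPn hP M hM
    have := W219.SP.part_k k r hk hr ε h1 h2 t ht A P hA hA0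
      (by convert hPA) hPn hP M hM
    convert this

end Pool.Agent.Results.MP_120218_co.LongFibres
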